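import Pool.Agent.R912.ZG.Red

/-!
# Zagier's conjecture on Dedekind zeta values: reduction to fields with few automorphisms

`Regulators n` holds the regulators in weight `n` of all number fields `L`, written as functions on
the set of embeddings of `L` in `ℂ`: the functions `σ ↦ reg (σ v)` for `v` in `K_{2n-1}(L) ⊗ ℚ` form
the space `KL L`, the functions `σ ↦ L̃_n (σ y)` for `y` in `ker δ_n ⊗ ℚ` form the space `BL L`. Its
fields are what is known: the map from `ker δ_n` to `K`-theory of Beilinson, Deligne and de Jeu
(`BL L ≤ KL L`), complex conjugation, functoriality, the transfer for `K`-theory, and Borel's theorem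
(rank `d_n`; the regulator determinant of a basis is not zero, and the zeta value is a rational
multiple of it). `Zagier T L` is Zagier's conjecture for `n` and `L`.

1. Zagier's conjecture for `n` and all number fields is equivalent to its case of the number fields
   `L` such that all subgroups of order `p q` (`p` and `q` primes, possibly equal) of the group of
   automorphisms of `L` are cyclic, `L` is not a CM field if `n` is odd, and `L` is not totally real if
   `n` is even.
2. For each number field `L` which does not have these properties, Zagier's conjecture for the
   fields `L^g`, `g ≠ 1` an automorphism of `L`, implies Zagier's conjecture for `L`.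
-/

open NumberField Pool.Agent.R912.ZG

namespace Pool.Agent.Results.MP_f01982_nt.AutomorphismGroups

/-- **Zagier's conjecture: reduction to number fields with few automorphisms.** -/
theorem result (n : ℕ) (T : Regulators n) :
    ((∀ (L : Type) [Field L] [NumberField L], Zagier T L) ↔
      ∀ (L : Type) [Field L] [NumberField L], CyclicPQ L → ¬ (Odd n ∧ IsCM L) →
        ¬ (Even n ∧ IsTotReal L) → Zagier T L) ∧
    ∀ (L : Type) [Field L] [NumberField L],
      ¬ CyclicPQ L ∨ (Odd n ∧ IsCM L) ∨ (Even n ∧ IsTotReal L) →
      ZagierBelow T L → Zagier T L :=
  ⟨main T, fun L _ _ => main_one T L⟩

end Pool.Agent.Results.MP_f01982_nt.AutomorphismGroups
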