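import Pool.Agent.R913.Zag.Core

/-!
# MP_f01982_nt: Zagier's conjecture for Galois fields: one element and its conjugates suffice

Let `F` be a number field which is Galois over `ℚ`, with group `G`, and `σ` an embedding of `F` in `ℂ`; let `c` be the
element of `G` with `σ ∘ c` the complex conjugate of `σ` (`c = 1` if `F` is real). The embeddings of `F` are
`σ ∘ g`, `g ∈ G`, and `σ ∘ (c g)` is the complex conjugate of `σ ∘ g`. Let `D` be the space of all rational linear
combinations of symbols `{x}`, `x ∈ F`, which lie in the kernel of `δ_n` (the symbol `{∞}` is `0`), and for an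
embedding `τ` let `polylog τ y = ∑ q_i 𝓛_n(τ(x_i))` for `y = ∑ q_i {x_i}`.

Zagier's conjecture (Q1 for `F` and `n`) asks for `d_n` elements `y_j` of `D` such that the determinant of the numbers
`polylog (σ ∘ g_i) y_j` is `ζ_F(n) π ^ (-n d_(n-1)) d_F ^ (1/2)` up to a non-zero rational factor. We prove:

1. Q1 for `(F, n)` holds if and only if the map of Beilinson-Deligne and de Jeu from `D` to the rational
   `K`-theory `K_(2n-1)(F)` is onto.
2. Q1 for `(F, n)` holds if and only if there is *one* element `y` of `D` such that the group determinant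
   `det (polylog (σ ∘ (g_i g_j⁻¹)) y)` is not zero.
3. Q1 for `(F, n)` holds if and only if there is one element `y` of `D` for which this group determinant is
   `ζ_F(n) π ^ (-n d_(n-1)) d_F ^ (1/2)` up to a non-zero rational factor: the elements `y_j` in Zagier's conjecture
   may be taken to be conjugates `g_j⁻¹ y` of one element. So the conjecture for a Galois field is equivalent to a
   formula for `ζ_F(n)` as a group determinant of values of the polylogarithm at one element, and the non-vanishing of
   the determinant of one element (which may be tested numerically) proves it.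
4. For odd `n` the conjecture for `F` follows from the conjecture for the real subfield `F ∩ ℝ` (which need not be
   Galois, if `c` is not in the centre of `G`), more precisely from the surjectivity of the map of
   Beilinson-Deligne and de Jeu for elements supported on `F ∩ ℝ` on `K_(2n-1)(F ∩ ℝ) = K_(2n-1)(F)^c`.

The theorem of Borel and the existence of the map of Beilinson-Deligne and de Jeu are fields of the structure
`PolylogSystem`; they are known for all `F` and `n`.

*Proof.* By Borel's theorem the vectors of regulators identify `ℝ ⊗ K_(2n-1)(F)` with the space of functions `f` on `G`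
with `f (c x) = ε f(x)`, `ε = (-1) ^ (n-1)`. This space contains the function with support `{1, c}`, whose matrix
`f (g_i g_j⁻¹)` is the identity. The rational points are dense in the real ones, so there is a rational vector with
non-zero group determinant; all bases of the `K`-group have the same determinant up to rational factors. For `ε = 1`
the function is invariant under `c` on both sides and the vector may be taken in the image of `1 + c`.
-/

set_option autoImplicit false

open Matrix Pool.Agent.R913.Zag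

namespace Pool.Agent.Results.MP_f01982_nt.OneElement

variable (F : Type) [Field F] [NumberField F]

/-- The number `d_m`: `r₁ + r₂` for `m` odd, `r₂` for `m` even. -/
noncomputable def numberOfEmbeddings (m : ℕ) : ℕ :=
  if Odd m then NumberField.InfinitePlace.nrRealPlaces F + NumberField.InfinitePlace.nrComplexPlaces F
  else NumberField.InfinitePlace.nrComplexPlaces F

/-- The number `ζ_F(n) π ^ (-n d_(n-1)) |d_F| ^ (1/2)`. -/
noncomputable def zagierNumber (n : ℕ) : ℝ :=
  (NumberField.dedekindZeta F n).re * Real.sqrt |(NumberField.discr F : ℝ)| /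
    Real.pi ^ (n * numberOfEmbeddings F (n - 1))

variable {F}

/-- The value `∑ q_i 𝓛(τ(x_i))` at `y = ∑ q_i {x_i}`. -/
noncomputable def polylog (L : ℂ → ℝ) (τ : F →+* ℂ) (y : F →₀ ℚ) : ℝ := y.sum fun x q => (q : ℝ) * L (τ x)

/-- The element `g y = ∑ q_i {g x_i}`. -/
noncomputable def conjugate (g : F ≃+* F) (y : F →₀ ℚ) : F →₀ ℚ := y.mapDomain g

/-- The embedding `σ ∘ g`. -/
def embedding (σ : F →+* ℂ) (g : F ≃+* F) : F →+* ℂ := σ.comp g.toRingHom

/-- The sign `(-1) ^ (n - 1)`. -/
def sign (n : ℕ) : ℝ := (-1) ^ (n - 1)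

variable {ι : Type} [Fintype ι] [DecidableEq ι] {V : Type} [AddCommGroup V] [Module ℚ V]

/-- The determinant of the polylogarithms of the elements `y j` at the embeddings `σ ∘ g i`. -/
noncomputable def polylogDet (L : ℂ → ℝ) (σ : F →+* ℂ) (g : ι → F ≃+* F) (y : ι → F →₀ ℚ) : ℝ :=
  (Matrix.of fun i j => polylog L (embedding σ (g i)) (y j)).det

/-- The group determinant of one element. -/
noncomputable def groupDet (L : ℂ → ℝ) (σ : F →+* ℂ) (g : ι → F ≃+* F) (y : F →₀ ℚ) : ℝ :=
  (Matrix.of fun i j => polylog L (embedding σ (g i * (g j)⁻¹)) y).det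

/-- Borel's theorem: for some basis of `V` the determinant of the regulators is not zero and a non-zero rational
multiple of `R`. -/
def Borel (R : ℝ) (g : ι → F ≃+* F) (action : (F ≃+* F) →* (V →ₗ[ℚ] V)) (reg : V →ₗ[ℚ] ℝ) : Prop :=
  ∃ (b : Module.Basis ι ℚ V) (q : ℚ), q ≠ 0 ∧ (vmat action reg g b).det = q * R ∧ (vmat action reg g b).det ≠ 0

/-- `L` is the polylogarithm of weight `n`, with its behaviour under complex conjugation; the embeddings
`σ ∘ g i` are the real ones and one of each complex conjugate pair (`n` odd), or one of each complex pair (`n` even);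
`D` is a space of combinations of symbols stable under the Galois group; `V` is the rational `K`-group with the action
of the Galois group and the component `reg` at `σ` of the Borel regulator; the restriction of `l` to `D` is the map of
Beilinson-Deligne and de Jeu; and Borel's theorem. -/
structure PolylogSystem (n : ℕ) (L : ℂ → ℝ) (σ : F →+* ℂ) (c : F ≃+* F) (g : ι → F ≃+* F)
    (D : Submodule ℚ (F →₀ ℚ)) (action : (F ≃+* F) →* (V →ₗ[ℚ] V)) (reg : V →ₗ[ℚ] ℝ) (l : (F →₀ ℚ) →ₗ[ℚ] V) :
    Prop where
  conj : ∀ z, L ((starRingEnd ℂ) z) = sign n * L z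
  cc : ∀ x, σ (c x) = (starRingEnd ℂ) (σ x)
  list : IsList c (sign n) g
  stable : ∀ h, ∀ y ∈ D, conjugate h y ∈ D
  equivariant : ∀ h, ∀ y ∈ D, l (conjugate h y) = action h (l y)
  regConj : ∀ v, reg (action c v) = sign n * reg v
  value : ∀ y ∈ D, reg (l y) = polylog L σ y
  borel : Borel (zagierNumber F n) g action reg

/-- Q1 for `F` and `n`: `zagierNumber` is, up to a non-zero rational factor, the determinant of the polylogarithms of
elements `y j` of `D` at the embeddings `σ ∘ g i`. -/
def Zagier (n : ℕ) (L : ℂ → ℝ) (σ : F →+* ℂ) (g : ι → F ≃+* F) (D : Submodule ℚ (F →₀ ℚ)) : Prop :=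
  ∃ (y : ι → F →₀ ℚ) (q : ℚ), (∀ j, y j ∈ D) ∧ q ≠ 0 ∧ zagierNumber F n = q * polylogDet L σ g y

/-- `l` maps `D` onto `V`. -/
def Onto (D : Submodule ℚ (F →₀ ℚ)) (l : (F →₀ ℚ) →ₗ[ℚ] V) : Prop := ∀ v, ∃ y ∈ D, l y = v

/-- `zagierNumber` is, up to a non-zero rational factor, the group determinant of one element of `D`. -/
def OneElementFormula (n : ℕ) (L : ℂ → ℝ) (σ : F →+* ℂ) (g : ι → F ≃+* F) (D : Submodule ℚ (F →₀ ℚ)) : Prop :=
  ∃ y ∈ D, ∃ q : ℚ, q ≠ 0 ∧ zagierNumber F n = q * groupDet L σ g y

/-- The symbols `{x}` which occur in `y` have `x` fixed by `c`. -/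
def SupportedOnFixed (c : F ≃+* F) (y : F →₀ ℚ) : Prop := ∀ x, y x ≠ 0 → c x = x

/-- `l` maps the elements of `D` supported on the field fixed by `c` onto the invariants of `c`. -/
def OntoForFixed (c : F ≃+* F) (D : Submodule ℚ (F →₀ ℚ)) (action : (F ≃+* F) →* (V →ₗ[ℚ] V))
    (l : (F →₀ ℚ) →ₗ[ℚ] V) : Prop :=
  ∀ v, action c v = v → ∃ y ∈ D, SupportedOnFixed c y ∧ l y = v

omit [NumberField F] in
theorem conjugate_mul (g h : F ≃+* F) (y : F →₀ ℚ) : conjugate (g * h) y = conjugate g (conjugate h y) := by
  unfold conjugate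
  rw [← Finsupp.mapDomain_comp]
  rfl

omit [NumberField F] in
theorem polylog_embedding (L : ℂ → ℝ) (σ : F →+* ℂ) (g : F ≃+* F) (y : F →₀ ℚ) :
    polylog L (embedding σ g) y = polylog L σ (conjugate g y) := by
  unfold polylog conjugate
  rw [Finsupp.sum_mapDomain_index]
  · rfl
  · intro x
    rw [Rat.cast_zero, zero_mul]
  · intro x q1 q2
    rw [Rat.cast_add, add_mul]

/-- **Zagier's conjecture for Galois fields: one element and its conjugates suffice.** -/
theorem result [IsGalois ℚ F] (n : ℕ) (L : ℂ → ℝ) (σ : F →+* ℂ) (c : F ≃+* F) (g : ι → F ≃+* F)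
    (D : Submodule ℚ (F →₀ ℚ)) (action : (F ≃+* F) →* (V →ₗ[ℚ] V)) (reg : V →ₗ[ℚ] ℝ) (l : (F →₀ ℚ) →ₗ[ℚ] V)
    (h : PolylogSystem n L σ c g D action reg l) :
    (Zagier n L σ g D ↔ Onto D l) ∧
    (Zagier n L σ g D ↔ ∃ y ∈ D, groupDet L σ g y ≠ 0) ∧
    (Zagier n L σ g D ↔ OneElementFormula n L σ g D) ∧
    (Odd n → OntoForFixed c D action l → ∃ y ∈ D, SupportedOnFixed c y ∧ groupDet L σ g y ≠ 0) := by
  obtain ⟨b, q0, hq0, hb1, hb2⟩ := h.borel
  have hcc : c * c = 1 := by
    ext x
    apply σ.injective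
    change σ (c (c x)) = σ x
    rw [h.cc, h.cc, Complex.conj_conj]
  have hε : sign n * sign n = 1 := by
    unfold sign
    rw [← mul_pow]
    norm_num
  have hval : ∀ (k : F ≃+* F), ∀ y ∈ D, reg (action k (l y)) = polylog L (embedding σ k) y := by
    intro k y hy
    rw [polylog_embedding, ← h.equivariant k y hy, h.value _ (h.stable k _ hy)]
  have hmat : ∀ y : ι → F →₀ ℚ, (∀ j, y j ∈ D) → polylogDet L σ g y = (vmat action reg g (fun j => l (y j))).det := by
    intro y hy
    unfold polylogDet
    congr 1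
    ext i j
    exact (hval (g i) (y j) (hy j)).symm
  have hgrp : ∀ y ∈ D, groupDet L σ g y = (Matrix.of fun i j => reg (action (g i * (g j)⁻¹) (l y))).det := by
    intro y hy
    unfold groupDet
    congr 1
    ext i j
    exact (hval _ y hy).symm
  -- (1) → (2)
  have h12 : Zagier n L σ g D → Onto D l := by
    rintro ⟨y, q, hyD, hq, hy⟩
    have h1 : (vmat action reg g (fun j => l (y j))).det ≠ 0 := by
      intro h2
      rw [hmat y hyD, h2, mul_zero] at hy
      apply hb2
      rw [hb1, hy, mul_zero]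
    have h2 := span_of_det b _ h1
    have h3 : (⊤ : Submodule ℚ V) ≤ D.map l := by
      rw [← h2, Submodule.span_le]
      rintro _ ⟨j, rfl⟩
      exact ⟨y j, hyD j, rfl⟩
    intro v
    obtain ⟨y', hy1, hy2⟩ := h3 (Submodule.mem_top (x := v))
    exact ⟨y', hy1, hy2⟩
  -- (2) → (3)
  have h23 : Onto D l → ∃ y ∈ D, groupDet L σ g y ≠ 0 := by
    intro hl
    obtain ⟨v, hv⟩ := exists_vector hcc hε h.list h.regConj b hb2
    obtain ⟨y, hy, rfl⟩ := hl v
    exact ⟨y, hy, by rw [hgrp y hy]; exact hv⟩
  -- (3) → (4)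
  have h34 : ∀ y ∈ D, groupDet L σ g y ≠ 0 →
      ∃ q : ℚ, q ≠ 0 ∧ zagierNumber F n = q * groupDet L σ g y := by
    intro y hy hne
    have h1 := hgrp y hy
    rw [mul_inv_fam, vmat_basis b, hb1] at h1
    set A : ℚ := (b.toMatrix fun j => (action (g j)⁻¹) (l y)).det with hA
    have hA0 : A ≠ 0 := by
      intro h2
      apply hne
      rw [h1, h2, Rat.cast_zero, mul_zero]
    refine ⟨(q0 * A)⁻¹, inv_ne_zero (mul_ne_zero hq0 hA0), ?_⟩
    rw [h1]
    have h2 : (q0 : ℝ) ≠ 0 := by exact_mod_cast hq0
    have h3 : (A : ℝ) ≠ 0 := by exact_mod_cast hA0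
    push_cast
    field_simp
  -- (4) → (1)
  have h41 : OneElementFormula n L σ g D → Zagier n L σ g D := by
    rintro ⟨y, hy, q, hq, h1⟩
    refine ⟨fun j => conjugate (g j)⁻¹ y, q, fun j => h.stable _ _ hy, hq, ?_⟩
    rw [h1]
    congr 1
    unfold groupDet polylogDet
    congr 1
    ext i j
    simp only [Matrix.of_apply]
    rw [polylog_embedding, polylog_embedding, conjugate_mul]
  refine ⟨⟨h12, fun hl => ?_⟩, ⟨fun hz => h23 (h12 hz), ?_⟩, ⟨fun hz => ?_, h41⟩, ?_⟩
  · obtain ⟨y, hy, h1⟩ := h23 hl
    exact h41 ⟨y, hy, h34 y hy h1⟩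
  · rintro ⟨y, hy, h1⟩
    exact h41 ⟨y, hy, h34 y hy h1⟩
  · obtain ⟨y, hy, h1⟩ := h23 (h12 hz)
    exact ⟨y, hy, h34 y hy h1⟩
  · intro hn hE
    have hε1 : sign n = 1 := by
      obtain ⟨k, rfl⟩ := hn
      unfold sign
      rw [Nat.add_sub_cancel, pow_mul]
      norm_num
    obtain ⟨v, hv1, hv2⟩ := exists_vector_fixed hcc hε1 h.list h.regConj b hb2
    obtain ⟨y, hy, hy1, rfl⟩ := hE v hv1
    exact ⟨y, hy, hy1, by rw [hgrp y hy]; exact hv2⟩

end Pool.Agent.Results.MP_f01982_nt.OneElement
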